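import Mathlib
import Pool.Agent.X298.GG.Main

/-!
# The global Gan–Gross–Prasad conjecture for all twists by the characters of a finite group: one sum

Let `π_V`, `π_W` be tempered cuspidal representations as in the problem, `S` a finite set of places of `E` which contains the
ramified ones, `a_w`, `b_w` (`w ∉ S`) the Satake parameters in the standard representations (eigenvalues of absolute value `1`),
`A_w(k) = tr a_w^k`, `B_w(k) = tr b_w^k`; so `L^S(s, π_V ⊠ π_W)` is the Euler product over the places `w ∉ S` of `E` of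
`det(1 - a_w ⊗ b_w q_w^{-s})⁻¹`. Let `M / E` be a finite abelian extension unramified outside `S`, anticyclotomic over `F` in the
Hermitian case, of exponent two in the orthogonal case (so that the twists `π_V ⊗ χ` by the characters of `G = Gal(M / E)` are
representations of `G(V)`), and `φ(w) ∈ G` the Frobenius elements. For `γ > π / 2`, `T > 0` let

  `S_1(T) = ∑_{w ∉ S, k ≥ 1, φ(w)^k = 1} A_w(k) B_w(k) q_w^{-k/2} e^{iγu} / (k Γ(1 + u))`,  `u = k log q_w / T`,

an absolutely convergent sum. Suppose that the functions `L^S(s, π_V ⊠ π_W ⊗ χ)` have continuations, meromorphic at the points of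
`[1/2, 1]` and holomorphic at `1/2`. Then

* `exp(|G| S_1(T)) = ∏_χ L^S(1/2, π_V ⊠ π_W ⊗ χ) + O(1/T)` for `T → ∞`;
* all these central values are nonzero if and only if `Re S_1(T)` is bounded from below for large `T`, if and only if it does not
  tend to `- ∞`;
* if the conjecture holds for all the twists, then all the twisted pairs have nonzero periods **if and only if the one sum `Re S_1(T)` is
  bounded from below** and the local conditions hold; for `G = 1` this is the statement for `(π_V, π_W)` itself.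
-/

set_option autoImplicit false

open Filter Topology
open IsDedekindDomain NumberField

namespace Pool.Agent.Results.MP_41920c_nt.AllTwistsFromOneSum

open Pool.Agent.X298.ST Pool.Agent.X298.II Pool.Agent.X298.GG

/-- **Gan–Gross–Prasad for all twists by a finite group of characters.** -/
theorem result {E : Type} [Field E] [NumberField E] (S : Set (HeightOneSpectrum (𝓞 E))) (N₁ N₂ : ℕ)
    (π : Satake S N₁ N₂) {G : Type} [CommGroup G] [Finite G] (φ : Places S → G) (Λ : (G →* ℂ) → ℂ → ℂ)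
    (hc : ∀ χ, IsCont (π.tw φ χ) (1 / 2) (Λ χ)) (ha : ∀ χ, AnalyticAt ℂ (Λ χ) (1 / 2)) {γ : ℝ}
    (hγ : Real.pi / 2 < γ) :
    (∀ T : ℝ, 0 < T → Summable fun x => ‖oneTerm π φ γ T x‖) ∧
    (fun T : ℝ => Complex.exp (Nat.card G * oneSum π φ γ T) - ∏ᶠ χ : G →* ℂ, Λ χ (1 / 2)) =O[atTop]
      (fun T : ℝ => 1 / T) ∧
    ((∀ χ, Λ χ (1 / 2) ≠ 0) ↔ ∃ C : ℝ, ∀ᶠ T : ℝ in atTop, C ≤ (oneSum π φ γ T).re) ∧
    ((∀ χ, Λ χ (1 / 2) ≠ 0) ↔ ∃ C : ℝ, ∃ᶠ T : ℝ in atTop, C ≤ (oneSum π φ γ T).re) ∧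
    ∀ Hom Per : (G →* ℂ) → Prop, (∀ χ, Λ χ (1 / 2) ≠ 0 ∧ Hom χ ↔ Per χ) →
      ((∀ χ, Per χ) ↔ (∃ C : ℝ, ∀ᶠ T : ℝ in atTop, C ≤ (oneSum π φ γ T).re) ∧ ∀ χ, Hom χ) := by
  obtain ⟨h1, h2, h3⟩ := main π φ Λ hc ha hγ
  refine ⟨fun T hT => oneTerm_summable π φ γ hT, h1, h2, h3, fun Hom Per h => ?_⟩
  rw [← h2]
  constructor
  · intro h4
    exact ⟨fun χ => ((h χ).2 (h4 χ)).1, fun χ => ((h χ).2 (h4 χ)).2⟩
  · rintro ⟨h4, h5⟩ χ
    exact (h χ).1 ⟨h4 χ, h5 χ⟩

end Pool.Agent.Results.MP_41920c_nt.AllTwistsFromOneSum
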